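import Mathlib

set_option autoImplicit false

open Complex Set Metric Topology Filter Asymptotics

namespace Pool.Agent.T9h9.Tan

/-- second order Taylor estimate -/
theorem second_order {F : ℂ → ℂ} {a : ℂ} {B R : ℝ} (hR : 0 < R)
    (hF : DifferentiableOn ℂ F (ball 0 R))
    (hb : ∀ u ∈ ball (0:ℂ) R, ‖F u‖ ≤ B) (ha : HasDerivAt F a 0) (haB : ‖a‖ ≤ B) {u : ℂ}
    (hu : u ∈ ball (0:ℂ) R) :
    ‖F u - F 0 - a * u‖ ≤ B * (2 + R) / R ^ 2 * ‖u‖ ^ 2 := by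
  have hB : 0 ≤ B := (norm_nonneg a).trans haB
  set g : ℂ → ℂ := fun u => F u - a * u with hg
  have hg0 : g 0 = F 0 := by simp [hg]
  have h1 : DifferentiableOn ℂ g (ball 0 R) := by
    apply hF.sub
    fun_prop
  have h2 : MapsTo g (ball 0 R) (closedBall (g 0) (B * (2 + R))) := by
    intro v hv
    rw [mem_closedBall, dist_eq_norm, hg0]
    have h3 := hb v hv
    have h4 := hb 0 (mem_ball_self hR)
    rw [mem_ball_zero_iff] at hv
    have h5 : ‖a * v‖ ≤ B * R := by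
      rw [norm_mul]
      exact mul_le_mul haB hv.le (norm_nonneg _) hB
    calc ‖g v - F 0‖ = ‖F v - a * v - F 0‖ := rfl
      _ ≤ ‖F v - a * v‖ + ‖F 0‖ := norm_sub_le _ _
      _ ≤ ‖F v‖ + ‖a * v‖ + ‖F 0‖ := by linarith [norm_sub_le (F v) (a * v)]
      _ ≤ B * (2 + R) := by linarith
  have h3 : (g · - g 0) =o[𝓝 0] (fun w ↦ ‖w - 0‖ ^ 1) := by
    have h4 := ha.isLittleO
    have h5 : (fun w : ℂ => F w - F 0 - (w - 0) • a) =o[𝓝 0] fun w : ℂ => ‖w - 0‖ ^ 1 := by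
      simp only [pow_one]
      exact h4.norm_right
    refine h5.congr_left ?_
    intro w
    rw [hg0]
    simp only [hg, smul_eq_mul, sub_zero]
    ring
  have h4 := dist_le_mul_div_pow_of_mapsTo_ball_of_isLittleO h1 h2 h3 hu
  rw [dist_eq_norm, hg0, dist_zero_right] at h4
  have h5 : g u - F 0 = F u - F 0 - a * u := by
    simp only [hg]; ring
  rw [h5] at h4
  refine h4.trans (le_of_eq ?_)
  have : R ≠ 0 := hR.ne'
  rw [show 1 + 1 = 2 from rfl, div_pow]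
  field_simp

/-- **Disc lemma**, uniform version. -/
theorem disc {a₀ b₀ B R : ℝ} (ha₀ : 0 < a₀) (hb₀ : 0 < b₀) (hB : 0 < B) (hR : 0 < R) :
    ∃ ρ₀ : ℝ, 0 < ρ₀ ∧ ∀ F m : ℂ → ℂ, DifferentiableOn ℂ F (ball 0 R) →
      DifferentiableOn ℂ m (ball 0 R) → (∀ u ∈ ball (0:ℂ) R, ‖F u‖ ≤ B) →
      (∀ u ∈ ball (0:ℂ) R, ‖m u‖ ≤ B) → F 0 = 0 → m 0 = 1 →
      ∀ a b : ℝ, a₀ ≤ a → a ≤ B → b₀ ≤ b → b ≤ B → HasDerivAt F a 0 → HasDerivAt m (-b) 0 →
      ∀ ρ : ℝ, 0 < ρ → ρ ≤ ρ₀ → ∀ Z : ℂ, ‖Z - ρ‖ ≤ ρ → Z ≠ 0 →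
        ∃ U ∈ ball (0:ℂ) R, F U = Z ∧ ‖m U‖ < 1 := by
  set C := B * (2 + R) / R ^ 2 with hC
  have hC0 : 0 < C := by positivity
  set s := min (R / 2) (a₀ / (4 * C)) with hs
  have hs0 : 0 < s := by
    apply lt_min <;> positivity
  have hsR : s < R := lt_of_le_of_lt (min_le_left _ _) (by linarith)
  have hsC : C * s ≤ a₀ / 4 := by
    have : s ≤ a₀ / (4 * C) := min_le_right _ _
    rw [le_div_iff₀ (by positivity)] at this
    linarith
  set K := (B ^ 2 / 2 + C + 1) / b₀ with hK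
  have hK0 : 0 < K := by positivity
  refine ⟨min (a₀ * s / 16) (a₀ ^ 2 / (8 * (B * K + C))), by apply lt_min <;> positivity, ?_⟩
  intro F m hF hm hFB hmB hF0 hm0 a b haa haB hbb hbB hFd hmd ρ hρ hρle Z hZ hZ0
  have hρ1 : ρ ≤ a₀ * s / 16 := hρle.trans (min_le_left _ _)
  have hρ2 : ρ ≤ a₀ ^ 2 / (8 * (B * K + C)) := hρle.trans (min_le_right _ _)
  have ha0 : 0 < a := by linarith
  have hb0 : 0 < b := by linarith
  have hFs : ∀ u ∈ ball (0:ℂ) R, ‖F u - a * u‖ ≤ C * ‖u‖ ^ 2 := by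
    intro u hu
    have := second_order hR hF hFB hFd (by rwa [Complex.norm_real, Real.norm_eq_abs, abs_of_pos ha0]) hu
    rwa [hF0, sub_zero] at this
  have hms : ∀ u ∈ ball (0:ℂ) R, ‖m u - (1 - b * u)‖ ≤ C * ‖u‖ ^ 2 := by
    intro u hu
    have := second_order hR hm hmB hmd
      (by rwa [norm_neg, Complex.norm_real, Real.norm_eq_abs, abs_of_pos hb0]) hu
    rw [hm0] at this
    convert this using 2
    ring
  -- lower bound for F
  have hlow : ∀ u ∈ closedBall (0:ℂ) s, a₀ / 2 * ‖u‖ ≤ ‖F u‖ := by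
    intro u hu
    rw [mem_closedBall_zero_iff] at hu
    have h1 := hFs u (mem_ball_zero_iff.mpr (by linarith))
    have h2 : ‖(a:ℂ) * u‖ = a * ‖u‖ := by
      rw [norm_mul, Complex.norm_real, Real.norm_eq_abs, abs_of_pos ha0]
    have h3 : ‖(a:ℂ) * u‖ ≤ ‖F u‖ + ‖F u - a * u‖ := by
      have := norm_sub_le (F u) (F u - a * u)
      rwa [sub_sub_cancel] at this
    have h4 : C * ‖u‖ ^ 2 ≤ a₀ / 4 * ‖u‖ := by
      rw [sq, ← mul_assoc]
      apply mul_le_mul_of_nonneg_right _ (norm_nonneg u)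
      exact (mul_le_mul_of_nonneg_left hu hC0.le).trans hsC
    have h5 : a₀ * ‖u‖ ≤ a * ‖u‖ := mul_le_mul_of_nonneg_right haa (norm_nonneg u)
    nlinarith [norm_nonneg u]
  -- surjectivity
  have hsurj : ball (0:ℂ) (a₀ / 2 * s / 2) ⊆ F '' closedBall 0 s := by
    have h1 : DiffContOnCl ℂ F (ball 0 s) := by
      apply DifferentiableOn.diffContOnCl
      rw [closure_ball _ hs0.ne']
      exact hF.mono (closedBall_subset_ball hsR)
    have h2 := h1.ball_subset_image_closedBall (ε := a₀ / 2 * s) hs0 (by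
      intro z hz
      rw [hF0, sub_zero]
      have h3 := hlow z (sphere_subset_closedBall hz)
      rw [mem_sphere_zero_iff_norm] at hz
      rwa [hz] at h3) (by
      have h3 : ∀ᶠ u in 𝓝[≠] (0:ℂ), F u ≠ F 0 := by
        have h4 : ∀ᶠ u in 𝓝[≠] (0:ℂ), u ∈ ball (0:ℂ) s :=
          nhdsWithin_le_nhds (ball_mem_nhds 0 hs0)
        filter_upwards [h4, self_mem_nhdsWithin] with u hu hu0
        intro h5
        have h6 := hlow u (ball_subset_closedBall hu)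
        rw [h5, hF0, norm_zero] at h6
        have : 0 < ‖u‖ := norm_pos_iff.mpr hu0
        nlinarith
      exact h3.frequently.filter_mono nhdsWithin_le_nhds)
    rwa [hF0] at h2
  have hZn : ‖Z‖ ≤ 2 * ρ := by
    have h1 := norm_add_le (Z - ρ) (ρ : ℂ)
    rw [sub_add_cancel, Complex.norm_real, Real.norm_eq_abs, abs_of_pos hρ] at h1
    linarith
  obtain ⟨U, hU, hUZ⟩ := hsurj (mem_ball_zero_iff.mpr (by
    have : 0 < a₀ * s := by positivity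
    linarith) : Z ∈ ball (0:ℂ) (a₀ / 2 * s / 2))
  have hUR : U ∈ ball (0:ℂ) R := closedBall_subset_ball hsR hU
  refine ⟨U, hUR, hUZ, ?_⟩
  have hU0 : U ≠ 0 := by
    rintro rfl
    exact hZ0 (by rw [← hUZ, hF0])
  have hUp : 0 < ‖U‖ := norm_pos_iff.mpr hU0
  have hUp2 : 0 < ‖U‖ ^ 2 := by positivity
  have h1 := hlow U hU
  rw [hUZ] at h1
  have h2 := hFs U hUR
  rw [hUZ] at h2
  -- real part of Z
  have h3 : ‖Z‖ ^ 2 ≤ 2 * ρ * Z.re := by
    have h4 : ‖Z - ρ‖ ^ 2 ≤ ρ ^ 2 := pow_le_pow_left₀ (norm_nonneg _) hZ 2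
    rw [Complex.sq_norm, normSq_apply] at h4
    rw [Complex.sq_norm, normSq_apply]
    simp only [sub_re, ofReal_re, sub_im, ofReal_im, sub_zero] at h4
    linarith
  have h4 : (a₀ / 2 * ‖U‖) ^ 2 ≤ ‖Z‖ ^ 2 := pow_le_pow_left₀ (by positivity) h1 2
  have h5 : (B * K + C) * ‖U‖ ^ 2 ≤ Z.re := by
    have h6 : ρ * (8 * (B * K + C)) ≤ a₀ ^ 2 := by
      rwa [le_div_iff₀ (by positivity)] at hρ2
    have h7 : a₀ ^ 2 * ‖U‖ ^ 2 ≤ 8 * ρ * Z.re := by nlinarith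
    have h8 : ρ * (8 * (B * K + C)) * ‖U‖ ^ 2 ≤ a₀ ^ 2 * ‖U‖ ^ 2 :=
      mul_le_mul_of_nonneg_right h6 hUp2.le
    have h9 : 8 * ρ * ((B * K + C) * ‖U‖ ^ 2) ≤ 8 * ρ * Z.re := by
      calc 8 * ρ * ((B * K + C) * ‖U‖ ^ 2) = ρ * (8 * (B * K + C)) * ‖U‖ ^ 2 := by ring
        _ ≤ _ := h8.trans h7
    exact le_of_mul_le_mul_left h9 (by positivity)
  have h6 : Z.re - a * U.re ≤ C * ‖U‖ ^ 2 := by
    have h7 := (Complex.re_le_norm (Z - a * U)).trans h2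
    rwa [sub_re, Complex.re_ofReal_mul] at h7
  have h7 : K * ‖U‖ ^ 2 ≤ U.re := by
    have h8 : B * (K * ‖U‖ ^ 2) ≤ a * U.re := by
      have : (B * K + C) * ‖U‖ ^ 2 = B * (K * ‖U‖ ^ 2) + C * ‖U‖ ^ 2 := by ring
      linarith
    have h9 : 0 < U.re := by
      by_contra hcon
      push Not at hcon
      have h10 : 0 < B * (K * ‖U‖ ^ 2) := by positivity
      nlinarith
    have h10 : a * U.re ≤ B * U.re := mul_le_mul_of_nonneg_right haB h9.le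
    exact le_of_mul_le_mul_left (h8.trans h10) hB
  have h8 := hms U hUR
  have h9 : ‖(1:ℂ) - b * U‖ ≤ 1 - b * U.re + b ^ 2 / 2 * ‖U‖ ^ 2 := by
    have h10 : ‖(1:ℂ) - b * U‖ ^ 2 = 1 - 2 * b * U.re + b ^ 2 * ‖U‖ ^ 2 := by
      rw [Complex.sq_norm, Complex.sq_norm, normSq_apply, normSq_apply]
      simp only [sub_re, one_re, sub_im, one_im, Complex.re_ofReal_mul, Complex.im_ofReal_mul]
      ring
    nlinarith [sq_nonneg (‖(1:ℂ) - b * U‖ - 1)]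
  have h10 : ‖m U‖ ≤ ‖(1:ℂ) - b * U‖ + ‖m U - (1 - b * U)‖ := by
    have := norm_add_le ((1:ℂ) - b * U) (m U - (1 - b * U))
    rwa [add_sub_cancel] at this
  have h11 : b₀ * (K * ‖U‖ ^ 2) ≤ b * U.re := by
    apply mul_le_mul hbb h7 (by positivity) hb0.le
  have h12 : b₀ * (K * ‖U‖ ^ 2) = (B ^ 2 / 2 + C + 1) * ‖U‖ ^ 2 := by
    rw [hK]; field_simp
  have h13 : b ^ 2 ≤ B ^ 2 := pow_le_pow_left₀ hb0.le hbB 2
  nlinarith

end Pool.Agent.T9h9.Tan
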