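import Mathlib
import Pool.Agent.T9h9.Tan.Disc
import Pool.Agent.TH363.CD.Uniq

set_option autoImplicit false

open Complex Set Metric Topology Filter Asymptotics N62a1eb23

namespace Pool.Agent.T9h9.Tan

/-- even and odd parts of `(1 + y) ^ k`, as polynomials in `Y = y ^ 2` -/
noncomputable def es : ℕ → (ℂ → ℂ) × (ℂ → ℂ)
  | 0 => (fun _ => 1, fun _ => 0)
  | k + 1 => (fun Y => (es k).1 Y + Y * (es k).2 Y, fun Y => (es k).1 Y + (es k).2 Y)

/-- the even part -/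
noncomputable def E (k : ℕ) : ℂ → ℂ := (es k).1

/-- the odd part -/
noncomputable def S (k : ℕ) : ℂ → ℂ := (es k).2

theorem E_zero (Y : ℂ) : E 0 Y = 1 := rfl
theorem S_zero (Y : ℂ) : S 0 Y = 0 := rfl
theorem E_succ (k : ℕ) (Y : ℂ) : E (k + 1) Y = E k Y + Y * S k Y := rfl
theorem S_succ (k : ℕ) (Y : ℂ) : S (k + 1) Y = E k Y + S k Y := rfl

theorem pow_add_eq (k : ℕ) (y : ℂ) : (1 + y) ^ k = E k (y ^ 2) + y * S k (y ^ 2) := by
  induction k with
  | zero => simp [E_zero, S_zero]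
  | succ k ih => rw [pow_succ, ih, E_succ, S_succ]; ring

theorem pow_sub_eq (k : ℕ) (y : ℂ) : (1 - y) ^ k = E k (y ^ 2) - y * S k (y ^ 2) := by
  have := pow_add_eq k (-y)
  rw [neg_sq] at this
  rw [sub_eq_add_neg, this]; ring

theorem differentiable_ES (k : ℕ) : Differentiable ℂ (E k) ∧ Differentiable ℂ (S k) := by
  induction k with
  | zero => exact ⟨differentiable_const 1, differentiable_const 0⟩
  | succ k ih =>
    refine ⟨?_, ?_⟩
    · have : E (k + 1) = fun Y => E k Y + Y * S k Y := rfl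
      rw [this]
      exact ih.1.add (differentiable_id.mul ih.2)
    · have : S (k + 1) = fun Y => E k Y + S k Y := rfl
      rw [this]
      exact ih.1.add ih.2

theorem ES_at_zero (k : ℕ) : E k 0 = 1 ∧ S k 0 = k := by
  induction k with
  | zero => simp [E_zero, S_zero]
  | succ k ih =>
    rw [E_succ, S_succ, ih.1, ih.2]
    refine ⟨by ring, by push_cast; ring⟩

theorem hasDerivAt_ES (k : ℕ) : HasDerivAt (E k) ((k:ℂ) * (k - 1) / 2) 0 ∧
    HasDerivAt (S k) ((k:ℂ) * (k - 1) * (k - 2) / 6) 0 := by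
  induction k with
  | zero =>
    constructor
    · have : E 0 = fun _ => 1 := rfl
      rw [this]
      simpa using hasDerivAt_const (0:ℂ) (1:ℂ)
    · have : S 0 = fun _ => 0 := rfl
      rw [this]
      simpa using hasDerivAt_const (0:ℂ) (0:ℂ)
  | succ k ih =>
    constructor
    · have : E (k + 1) = fun Y => E k Y + Y * S k Y := rfl
      rw [this]
      refine (ih.1.add ((hasDerivAt_id (0:ℂ)).mul ih.2)).congr_deriv ?_
      simp only [id, (ES_at_zero k).2]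
      push_cast
      ring
    · have : S (k + 1) = fun Y => E k Y + S k Y := rfl
      rw [this]
      refine (ih.1.add ih.2).congr_deriv ?_
      push_cast
      ring

theorem ES_bd {N : ℕ} {Y : ℂ} (hY : ‖Y‖ * N ^ 2 ≤ 1) (k : ℕ) (hk : k ≤ N) :
    ‖E k Y - 1‖ ≤ ‖Y‖ * k ^ 2 ∧ ‖S k Y - k‖ ≤ ‖Y‖ * k ^ 3 := by
  induction k with
  | zero => simp [E_zero, S_zero]
  | succ k ih =>
    obtain ⟨h1, h2⟩ := ih (by omega)
    have hkN : (k:ℝ) ≤ N := by exact_mod_cast (by omega : k ≤ N)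
    have hk0 : (0:ℝ) ≤ k := Nat.cast_nonneg k
    have hY0 := norm_nonneg Y
    have h3 : ‖Y‖ * k ^ 2 ≤ 1 := by
      refine le_trans ?_ hY
      apply mul_le_mul_of_nonneg_left _ hY0
      exact pow_le_pow_left₀ hk0 hkN 2
    have h4 : ‖S k Y‖ ≤ 2 * k := by
      have h5 : ‖S k Y‖ ≤ ‖S k Y - k‖ + ‖(k:ℂ)‖ := by
        have := norm_add_le (S k Y - k) (k:ℂ)
        rwa [sub_add_cancel] at this
      rw [Complex.norm_natCast] at h5
      have h6 : ‖Y‖ * (k:ℝ) ^ 3 ≤ k := by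
        have h7 : ‖Y‖ * (k:ℝ) ^ 2 * (k:ℝ) ≤ 1 * (k:ℝ) := mul_le_mul_of_nonneg_right h3 hk0
        nlinarith
      linarith
    constructor
    · rw [E_succ]
      have h5 : E k Y + Y * S k Y - 1 = (E k Y - 1) + Y * S k Y := by ring
      rw [h5]
      refine (norm_add_le _ _).trans ?_
      rw [norm_mul]
      have h6 : ‖Y‖ * ‖S k Y‖ ≤ ‖Y‖ * (2 * k) := mul_le_mul_of_nonneg_left h4 hY0
      push_cast
      nlinarith
    · rw [S_succ]
      have h5 : E k Y + S k Y - ((k + 1 : ℕ) : ℂ) = (E k Y - 1) + (S k Y - k) := by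
        push_cast; ring
      rw [h5]
      refine (norm_add_le _ _).trans ?_
      push_cast
      have h6 : 0 ≤ ‖Y‖ * k := by positivity
      have h7 : 0 ≤ ‖Y‖ * k ^ 2 := by positivity
      nlinarith

theorem mem_of_fixed {n : ℕ} (hn : 2 ≤ n) {c z : ℂ} (hz : z ^ n + c = z)
    (hm : ‖(n:ℂ) * z ^ (n - 1)‖ < 1) : c ∈ multibrotSet n := by
  apply Pool.Agent.TH363.CD.mem_multibrot hn (z := z) (m := 1)
  have hd : HasDerivAt (Pool.Agent.W747.MB.f n c)^[1] ((n:ℂ) * z ^ (n - 1)) z := by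
    rw [Function.iterate_one]
    exact (hasDerivAt_pow n z).add_const c
  refine ⟨one_pos, ?_, hd.differentiableAt, ?_⟩
  · change (Pool.Agent.W747.MB.f n c)^[1] z = z
    rw [Function.iterate_one]
    exact hz
  · rw [hd.deriv]; exact hm

theorem mem_of_two {n : ℕ} (hn : 2 ≤ n) {c z w : ℂ} (hz : z ^ n + c = w) (hw : w ^ n + c = z)
    (hm : ‖(n:ℂ) * w ^ (n - 1) * (n * z ^ (n - 1))‖ < 1) : c ∈ multibrotSet n := by
  apply Pool.Agent.TH363.CD.mem_multibrot hn (z := z) (m := 2)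
  have h1 : HasDerivAt (Pool.Agent.W747.MB.f n c) ((n:ℂ) * z ^ (n - 1)) z :=
    (hasDerivAt_pow n z).add_const c
  have h2 : HasDerivAt (Pool.Agent.W747.MB.f n c) ((n:ℂ) * w ^ (n - 1))
      (Pool.Agent.W747.MB.f n c z) := by
    have : Pool.Agent.W747.MB.f n c z = w := hz
    rw [this]
    exact (hasDerivAt_pow n w).add_const c
  have hd : HasDerivAt (Pool.Agent.W747.MB.f n c)^[2]
      ((n:ℂ) * w ^ (n - 1) * (n * z ^ (n - 1))) z := by
    have h3 : (Pool.Agent.W747.MB.f n c)^[2] =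
        Pool.Agent.W747.MB.f n c ∘ Pool.Agent.W747.MB.f n c := rfl
    rw [h3]
    exact h2.comp z h1
  refine ⟨two_pos, ?_, hd.differentiableAt, ?_⟩
  · change Pool.Agent.W747.MB.f n c (Pool.Agent.W747.MB.f n c z) = z
    have : Pool.Agent.W747.MB.f n c z = w := hz
    rw [this]
    exact hw
  · rw [hd.deriv]; exact hm

/-! ### the main component -/

/-- parameters with a fixed point of multiplier `- exp u` -/
noncomputable def G0 (n : ℕ) (u : ℂ) : ℂ := exp (u / (n - 1)) * (1 + exp u / n)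

theorem sub_one_ne {n : ℕ} (hn : 2 ≤ n) : (n:ℂ) - 1 ≠ 0 := by
  have : (n:ℂ) ≠ 1 := by exact_mod_cast (by omega : n ≠ 1)
  exact sub_ne_zero.mpr this

theorem n_ne {n : ℕ} (hn : 2 ≤ n) : (n:ℂ) ≠ 0 := by exact_mod_cast (by omega : n ≠ 0)

theorem cast_sub_one {n : ℕ} (hn : 2 ≤ n) : ((n - 1 : ℕ) : ℂ) = (n:ℂ) - 1 := by
  rw [Nat.cast_sub (by omega)]; simp

theorem exp_div_pow {n : ℕ} (hn : 2 ≤ n) (u : ℂ) : exp (u / (n - 1)) ^ (n - 1) = exp u := by
  rw [← Complex.exp_nat_mul, cast_sub_one hn]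
  have := sub_one_ne hn
  congr 1
  field_simp

theorem G0_mem {n : ℕ} (hn : 2 ≤ n) {A : ℂ} (hA : A ^ (n - 1) = -1 / n) {u : ℂ}
    (hu : ‖exp u‖ < 1) : A * G0 n u ∈ multibrotSet n := by
  have hn0 := n_ne hn
  have h1 : (A * exp (u / (n - 1))) ^ (n - 1) = -exp u / n := by
    rw [mul_pow, hA, exp_div_pow hn]; ring
  have h2 : (A * exp (u / (n - 1))) ^ n = -exp u / n * (A * exp (u / (n - 1))) := by
    rw [← h1, ← pow_succ]; congr 1; omega
  apply mem_of_fixed hn (z := A * exp (u / (n - 1)))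
  · rw [h2, G0]; ring
  · rw [h1]
    have : (n:ℂ) * (-exp u / n) = -exp u := by field_simp
    rw [this, norm_neg]
    exact hu

theorem norm_exp_sub_one {w : ℂ} (hw : ‖w‖ ≤ 1) : ‖exp w - 1‖ ≤ 2 * ‖w‖ :=
  Complex.norm_exp_sub_one_le hw

theorem G0_disc : ∃ ρ₀ : ℝ, 0 < ρ₀ ∧ ∀ n : ℕ, 2 ≤ n → ∀ A : ℂ, A ^ (n - 1) = -1 / n →
    ∀ ρ : ℝ, 0 < ρ → ρ ≤ ρ₀ → ∀ Z : ℂ, ‖Z - ρ‖ ≤ ρ → Z ≠ 0 →
    A * (1 + 1 / n + (-Z) / n) ∈ multibrotSet n := by
  obtain ⟨ρ₀, hρ₀, h⟩ := disc (a₀ := 1 / 6) (b₀ := 1 / 4) (B := 20) (R := 1 / 2) (by norm_num)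
    (by norm_num) (by norm_num) (by norm_num)
  refine ⟨ρ₀, hρ₀, ?_⟩
  intro n hn A hA ρ hρ hρle Z hZ hZ0
  have hn0 := n_ne hn
  have hn1 := sub_one_ne hn
  have hnr : (2:ℝ) ≤ n := by exact_mod_cast hn
  have hnr1 : (0:ℝ) < (n:ℝ) - 1 := by linarith
  set F : ℂ → ℂ := fun u => (n:ℂ) * (1 + 1 / n) - n * G0 n (-u) with hF
  have hFd : Differentiable ℂ F := by
    rw [hF]; unfold G0
    fun_prop
  have hnorm : ∀ u ∈ ball (0:ℂ) (1 / 2), ‖F u‖ ≤ 20 := by
    intro u hu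
    rw [mem_ball_zero_iff] at hu
    have h1 : ‖exp (-u / (n - 1)) - 1‖ ≤ 2 * ‖-u / ((n:ℂ) - 1)‖ := by
      apply norm_exp_sub_one
      rw [norm_div, norm_neg]
      have : ‖(n:ℂ) - 1‖ = (n:ℝ) - 1 := by
        have : (n:ℂ) - 1 = (((n:ℝ) - 1 : ℝ) : ℂ) := by push_cast; rfl
        rw [this, Complex.norm_real, Real.norm_eq_abs, abs_of_pos hnr1]
      rw [this, div_le_one hnr1]
      linarith
    have h2 : ‖-u / ((n:ℂ) - 1)‖ ≤ 1 / n := by
      rw [norm_div, norm_neg]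
      have : ‖(n:ℂ) - 1‖ = (n:ℝ) - 1 := by
        have : (n:ℂ) - 1 = (((n:ℝ) - 1 : ℝ) : ℂ) := by push_cast; rfl
        rw [this, Complex.norm_real, Real.norm_eq_abs, abs_of_pos hnr1]
      rw [this, div_le_div_iff₀ hnr1 (by linarith)]
      nlinarith
    have h3 : ‖exp (-u)‖ ≤ 2 := by
      rw [Complex.norm_exp]
      have h4 : (-u).re ≤ 1 / 2 := (Complex.re_le_norm (-u)).trans (by rw [norm_neg]; exact hu.le)
      have h5 : Real.exp (1 / 2) ≤ 2 := by
        have h6 := Real.exp_one_lt_d9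
        have h7 : Real.exp (1 / 2) ^ 2 = Real.exp 1 := by
          rw [← Real.exp_nat_mul]; norm_num
        nlinarith [Real.exp_pos (1 / 2 : ℝ)]
      exact (Real.exp_le_exp.mpr h4).trans h5
    have h4 : F u = -(n * (exp (-u / (n - 1)) - 1)) * (1 + exp (-u) / n) + (1 - exp (-u)) := by
      simp only [hF, G0]
      field_simp
      ring
    rw [h4]
    have h5 : ‖-((n:ℂ) * (exp (-u / (n - 1)) - 1))‖ ≤ 2 := by
      rw [norm_neg, norm_mul, Complex.norm_natCast]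
      calc (n:ℝ) * ‖exp (-u / (n - 1)) - 1‖ ≤ n * (2 * (1 / n)) := by
            apply mul_le_mul_of_nonneg_left _ (by linarith)
            linarith
        _ = 2 := by field_simp
    have h6 : ‖1 + exp (-u) / (n:ℂ)‖ ≤ 2 := by
      refine (norm_add_le _ _).trans ?_
      rw [norm_one, norm_div, Complex.norm_natCast]
      have : ‖exp (-u)‖ / (n:ℝ) ≤ 1 := by
        rw [div_le_one (by linarith)]; linarith
      linarith
    have h7 : ‖1 - exp (-u)‖ ≤ 3 := by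
      refine (norm_sub_le _ _).trans ?_
      rw [norm_one]; linarith
    refine (norm_add_le _ _).trans ?_
    rw [norm_mul]
    have h8 : ‖-((n:ℂ) * (exp (-u / (n - 1)) - 1))‖ * ‖1 + exp (-u) / (n:ℂ)‖ ≤ 2 * 2 :=
      mul_le_mul h5 h6 (norm_nonneg _) (by norm_num)
    linarith
  have hmn : ∀ u ∈ ball (0:ℂ) (1 / 2), ‖exp (-u)‖ ≤ 20 := by
    intro u hu
    rw [mem_ball_zero_iff] at hu
    rw [Complex.norm_exp]
    have h4 : (-u).re ≤ 1 := (Complex.re_le_norm (-u)).trans (by rw [norm_neg]; linarith)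
    have h6 := Real.exp_one_lt_d9
    exact (Real.exp_le_exp.mpr h4).trans (by linarith)
  have hF0 : F 0 = 0 := by
    simp only [hF, G0, neg_zero, zero_div, exp_zero]
    ring
  have ha : HasDerivAt F ((2 * (n:ℝ) / (n - 1) : ℝ) : ℂ) 0 := by
    have h1 : HasDerivAt (fun u : ℂ => exp (-u / ((n:ℂ) - 1)))
        (exp (-0 / ((n:ℂ) - 1)) * (-1 / ((n:ℂ) - 1))) 0 :=
      ((hasDerivAt_neg (0:ℂ)).div_const _).cexp
    have h2 : HasDerivAt (fun u : ℂ => 1 + exp (-u) / (n:ℂ)) (exp (-0) * (-1) / (n:ℂ)) 0 :=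
      ((hasDerivAt_neg (0:ℂ)).cexp.div_const _).const_add 1
    have h3 := ((h1.mul h2).const_mul (n:ℂ)).const_sub ((n:ℂ) * (1 + 1 / n))
    refine (h3.congr_deriv ?_)
    simp only [neg_zero, zero_div, exp_zero]
    push_cast
    field_simp
    ring
  have hb : HasDerivAt (fun u : ℂ => exp (-u)) (-((1:ℝ):ℂ)) 0 := by
    have := (hasDerivAt_neg (0:ℂ)).cexp
    refine this.congr_deriv ?_
    simp
  obtain ⟨U, hU, hFU, hmU⟩ := h F (fun u => exp (-u)) hFd.differentiableOn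
    (by fun_prop) hnorm hmn hF0 (by simp) (2 * (n:ℝ) / (n - 1)) 1 (by
      rw [le_div_iff₀ hnr1]; nlinarith) (by
      rw [div_le_iff₀ hnr1]; nlinarith) (by norm_num) (by norm_num) ha hb ρ hρ hρle Z hZ hZ0
  have h1 := G0_mem hn hA (u := -U) hmU
  have h2 : G0 n (-U) = 1 + 1 / n + (-Z) / n := by
    simp only [hF] at hFU
    rw [← hFU]
    field_simp
    ring
  rwa [h2] at h1

/-! ### the component of period two -/

/-- parameters with a cycle of period two `α (1 ± y)`, `y ^ 2 = U / n ^ 2` -/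
noncomputable def G2 (n : ℕ) (U : ℂ) : ℂ :=
  exp (-(Complex.log (S n (U / n ^ 2) / n) / (n - 1))) * (1 + E n (U / n ^ 2) / S n (U / n ^ 2))

/-- its multiplier -/
noncomputable def m2 (n : ℕ) (U : ℂ) : ℂ :=
  (1 - U / n ^ 2) ^ (n - 1) / (S n (U / n ^ 2) / n) ^ 2

theorem S_near {n : ℕ} (hn : 2 ≤ n) {U : ℂ} (hU : ‖U‖ ≤ 1 / 2) :
    ‖E n (U / n ^ 2) - 1‖ ≤ 1 / 2 ∧ ‖S n (U / n ^ 2) / n - 1‖ ≤ 1 / 2 := by
  have hnr : (2:ℝ) ≤ n := by exact_mod_cast hn
  have hn0 := n_ne hn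
  have h1 : ‖U / (n:ℂ) ^ 2‖ * n ^ 2 = ‖U‖ := by
    rw [norm_div, norm_pow, Complex.norm_natCast]
    field_simp
  obtain ⟨h2, h3⟩ := ES_bd (N := n) (Y := U / n ^ 2) (by rw [h1]; linarith) n le_rfl
  rw [h1] at h2
  refine ⟨h2.trans hU, ?_⟩
  have h4 : S n (U / n ^ 2) / n - 1 = (S n (U / n ^ 2) - n) / n := by field_simp
  rw [h4, norm_div, Complex.norm_natCast, div_le_iff₀ (by linarith)]
  refine h3.trans ?_
  have h5 : ‖U / (n:ℂ) ^ 2‖ * (n:ℝ) ^ 3 = ‖U / (n:ℂ) ^ 2‖ * n ^ 2 * n := by ring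
  rw [h5, h1]
  exact mul_le_mul_of_nonneg_right hU (by linarith)

theorem S_slit {n : ℕ} (hn : 2 ≤ n) {U : ℂ} (hU : ‖U‖ ≤ 1 / 2) :
    S n (U / n ^ 2) / n ∈ slitPlane := by
  have h := (S_near hn hU).2
  have h2 : S n (U / n ^ 2) / n = 1 + (S n (U / n ^ 2) / n - 1) := by ring
  rw [h2]
  apply Complex.mem_slitPlane_of_norm_lt_one
  linarith

theorem G2_mem {n : ℕ} (hn : 2 ≤ n) {A : ℂ} (hA : A ^ (n - 1) = -1 / n) {U : ℂ}
    (hU : ‖U‖ ≤ 1 / 2) (hm : ‖m2 n U‖ < 1) : A * G2 n U ∈ multibrotSet n := by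
  have hn0 := n_ne hn
  have hn1 := sub_one_ne hn
  have hS := slitPlane_ne_zero (S_slit hn hU)
  obtain ⟨y, hy⟩ : ∃ y : ℂ, y ^ 2 = U / n ^ 2 := IsAlgClosed.exists_pow_nat_eq _ two_pos
  have hS0 : S n (U / n ^ 2) ≠ 0 := by
    intro h0
    apply hS
    rw [h0, zero_div]
  have e1 := pow_add_eq n y
  have e2 := pow_sub_eq n y
  rw [hy] at e1 e2
  set s := S n (U / n ^ 2) with hs
  set e := E n (U / n ^ 2) with he
  set α : ℂ := A * exp (-(Complex.log (s / n) / (n - 1))) with hα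
  have hαn : α ^ (n - 1) = -1 / s := by
    rw [hα, mul_pow, hA]
    have h1 : -(Complex.log (s / n) / (n - 1)) = (-Complex.log (s / n)) / (n - 1) := by ring
    rw [h1, exp_div_pow hn, Complex.exp_neg, Complex.exp_log hS]
    field_simp
  have hα2 : α ^ n = -1 / s * α := by
    rw [← hαn, ← pow_succ]; congr 1; omega
  have hc : A * G2 n U = α * (1 + e / s) := by
    rw [G2, hα]; ring
  rw [hc]
  apply mem_of_two hn (z := α * (1 + y)) (w := α * (1 - y))
  · rw [mul_pow, e1, hα2]; field_simp; ring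
  · rw [mul_pow, e2, hα2]; field_simp; ring
  · have h1 : (n:ℂ) * (α * (1 - y)) ^ (n - 1) * (n * (α * (1 + y)) ^ (n - 1)) =
        n ^ 2 * (α ^ (n - 1)) ^ 2 * (1 - y ^ 2) ^ (n - 1) := by
      have h3 : (1 - y ^ 2 : ℂ) ^ (n - 1) = (1 - y) ^ (n - 1) * (1 + y) ^ (n - 1) := by
        rw [← mul_pow]; congr 1; ring
      rw [h3, mul_pow α (1 - y), mul_pow α (1 + y)]
      generalize α ^ (n - 1) = p
      ring
    rw [h1, hαn, hy]
    have h2 : m2 n U = (n:ℂ) ^ 2 * (-1 / s) ^ 2 * (1 - U / n ^ 2) ^ (n - 1) := by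
      rw [m2, ← hs]
      field_simp
    rw [← h2]
    exact hm

theorem G2_disc : ∃ ρ₀ : ℝ, 0 < ρ₀ ∧ ∀ n : ℕ, 2 ≤ n → ∀ A : ℂ, A ^ (n - 1) = -1 / n →
    ∀ ρ : ℝ, 0 < ρ → ρ ≤ ρ₀ → ∀ Z : ℂ, ‖Z - ρ‖ ≤ ρ → Z ≠ 0 →
    A * (1 + 1 / n + Z / n) ∈ multibrotSet n := by
  obtain ⟨ρ₀, hρ₀, h⟩ := disc (a₀ := 1 / 6) (b₀ := 1 / 4) (B := 20) (R := 1 / 2) (by norm_num)
    (by norm_num) (by norm_num) (by norm_num)
  refine ⟨ρ₀, hρ₀, ?_⟩
  intro n hn A hA ρ hρ hρle Z hZ hZ0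
  have hn0 := n_ne hn
  have hn1 := sub_one_ne hn
  have hnr : (2:ℝ) ≤ n := by exact_mod_cast hn
  have hnr1 : (0:ℝ) < (n:ℝ) - 1 := by linarith
  obtain ⟨hEd, hSd⟩ := differentiable_ES n
  have hEd' : Differentiable ℂ fun U : ℂ => E n (U / n ^ 2) := hEd.comp (by fun_prop)
  have hSd' : Differentiable ℂ fun U : ℂ => S n (U / n ^ 2) := hSd.comp (by fun_prop)
  have hslit : ∀ u ∈ ball (0:ℂ) (1 / 2), S n (u / n ^ 2) / n ∈ slitPlane := fun u hu =>
    S_slit hn (mem_ball_zero_iff.mp hu).le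
  have hS0 : ∀ u ∈ ball (0:ℂ) (1 / 2), S n (u / n ^ 2) ≠ 0 := by
    intro u hu h0
    have := slitPlane_ne_zero (hslit u hu)
    rw [h0, zero_div] at this
    exact this rfl
  set F : ℂ → ℂ := fun u => n * G2 n u - (n:ℂ) * (1 + 1 / n) with hF
  have hFd : DifferentiableOn ℂ F (ball 0 (1 / 2)) := by
    rw [hF]; unfold G2
    apply DifferentiableOn.sub_const
    apply DifferentiableOn.const_mul
    apply DifferentiableOn.mul
    · apply DifferentiableOn.cexp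
      apply DifferentiableOn.neg
      apply DifferentiableOn.div_const
      exact DifferentiableOn.clog (hSd'.differentiableOn.div_const _) hslit
    · exact (hEd'.differentiableOn.div hSd'.differentiableOn hS0).const_add 1
  have hmd : DifferentiableOn ℂ (m2 n) (ball 0 (1 / 2)) := by
    unfold m2
    apply DifferentiableOn.div (by fun_prop) ((hSd'.differentiableOn.div_const _).pow 2)
    intro u hu
    exact pow_ne_zero _ (slitPlane_ne_zero (hslit u hu))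
  have hlow : ∀ u ∈ ball (0:ℂ) (1 / 2), 1 / 2 ≤ ‖S n (u / n ^ 2) / n‖ := by
    intro u hu
    have h1 := (S_near hn (mem_ball_zero_iff.mp hu).le).2
    have h2 := norm_sub_norm_le (1:ℂ) (1 - S n (u / n ^ 2) / n)
    rw [norm_one, sub_sub_cancel, norm_sub_rev] at h2
    linarith
  have hnorm : ∀ u ∈ ball (0:ℂ) (1 / 2), ‖F u‖ ≤ 20 := by
    intro u hu
    obtain ⟨h1, h2⟩ := S_near hn (mem_ball_zero_iff.mp hu).le
    have h3 := hlow u hu
    have hs0 := hS0 u hu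
    set s := S n (u / n ^ 2) with hs
    set e := E n (u / n ^ 2) with he
    have h4 : ‖Complex.log (s / n)‖ ≤ 3 / 4 := by
      have h5 := Complex.norm_log_one_add_half_le_self (z := s / n - 1) h2
      rw [add_sub_cancel] at h5
      linarith
    have hnn : ‖(n:ℂ) - 1‖ = (n:ℝ) - 1 := by
      have : (n:ℂ) - 1 = (((n:ℝ) - 1 : ℝ) : ℂ) := by push_cast; rfl
      rw [this, Complex.norm_real, Real.norm_eq_abs, abs_of_pos hnr1]
    have h5 : ‖-(Complex.log (s / n) / ((n:ℂ) - 1))‖ ≤ 3 / 2 / n := by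
      rw [norm_neg, norm_div, hnn, div_le_div_iff₀ hnr1 (by linarith)]
      nlinarith
    have h6 : ‖exp (-(Complex.log (s / n) / (n - 1))) - 1‖ ≤ 3 / n := by
      have h7 := norm_exp_sub_one (w := -(Complex.log (s / n) / ((n:ℂ) - 1))) (h5.trans (by
        rw [div_le_one (by linarith)]; linarith))
      refine h7.trans ?_
      have : 3 / (n:ℝ) = 2 * (3 / 2 / n) := by ring
      rw [this]
      linarith
    have h7 : F u = n * (exp (-(Complex.log (s / n) / (n - 1))) - 1) * (1 + e / s) +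
        (e - s / n) / (s / n) := by
      simp only [hF, G2]
      rw [← hs, ← he]
      field_simp
      ring
    have h8 : ‖(e - s / n) / (s / n)‖ ≤ 2 := by
      rw [norm_div, div_le_iff₀ (by linarith)]
      have h9 : e - s / n = (e - 1) - (s / n - 1) := by ring
      rw [h9]
      have := norm_sub_le (e - 1) (s / n - 1)
      linarith
    have h9 : ‖1 + e / s‖ ≤ 3 := by
      have h10 : e / s = e / (s / n) / n := by field_simp
      rw [h10]
      refine (norm_add_le _ _).trans ?_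
      rw [norm_one, norm_div, norm_div, Complex.norm_natCast]
      have h11 : ‖e‖ ≤ 3 / 2 := by
        have := norm_add_le (e - 1) 1
        rw [sub_add_cancel, norm_one] at this
        linarith
      have h12 : ‖e‖ / ‖s / n‖ ≤ 3 := by
        rw [div_le_iff₀ (by linarith)]
        linarith
      have h13 : ‖e‖ / ‖s / n‖ / n ≤ 2 := by
        rw [div_le_iff₀ (by linarith)]
        linarith
      linarith
    rw [h7]
    refine (norm_add_le _ _).trans ?_
    have h10 : ‖(n:ℂ) * (exp (-(Complex.log (s / n) / (n - 1))) - 1)‖ ≤ 3 := by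
      rw [norm_mul, Complex.norm_natCast]
      have h11 : (n:ℝ) * ‖exp (-(Complex.log (s / n) / (n - 1))) - 1‖ ≤ n * (3 / n) :=
        mul_le_mul_of_nonneg_left h6 (by linarith)
      have h12 : (n:ℝ) * (3 / n) = 3 := by field_simp
      linarith
    rw [norm_mul]
    have h11 : ‖(n:ℂ) * (exp (-(Complex.log (s / n) / (n - 1))) - 1)‖ * ‖1 + e / s‖ ≤ 3 * 3 :=
      mul_le_mul h10 h9 (norm_nonneg _) (by norm_num)
    linarith
  have hmn : ∀ u ∈ ball (0:ℂ) (1 / 2), ‖m2 n u‖ ≤ 20 := by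
    intro u hu
    have h3 := hlow u hu
    rw [mem_ball_zero_iff] at hu
    rw [m2, norm_div, norm_pow, norm_pow]
    have h4 : ‖1 - u / (n:ℂ) ^ 2‖ ≤ 1 + 1 / n := by
      refine (norm_sub_le _ _).trans ?_
      rw [norm_one, norm_div, norm_pow, Complex.norm_natCast]
      have : ‖u‖ / (n:ℝ) ^ 2 ≤ 1 / n := by
        rw [div_le_div_iff₀ (by positivity) (by linarith)]
        nlinarith [norm_nonneg u]
      linarith
    have h5 : ‖1 - u / (n:ℂ) ^ 2‖ ^ (n - 1) ≤ 3 := by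
      have h6 : ‖1 - u / (n:ℂ) ^ 2‖ ≤ Real.exp (1 / n) := by
        refine h4.trans ?_
        have := Real.add_one_le_exp (1 / (n:ℝ))
        linarith
      calc ‖1 - u / (n:ℂ) ^ 2‖ ^ (n - 1) ≤ Real.exp (1 / n) ^ (n - 1) :=
            pow_le_pow_left₀ (norm_nonneg _) h6 _
        _ ≤ Real.exp (1 / n) ^ n := by
            apply pow_le_pow_right₀ _ (by omega)
            exact Real.one_le_exp (by positivity)
        _ = Real.exp 1 := by
            rw [← Real.exp_nat_mul]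
            congr 1
            field_simp
        _ ≤ 3 := by
            have := Real.exp_one_lt_d9
            linarith
    rw [div_le_iff₀ (by positivity)]
    have h6 : (1 / 2 : ℝ) ^ 2 ≤ ‖S n (u / n ^ 2) / n‖ ^ 2 := pow_le_pow_left₀ (by norm_num) h3 2
    linarith
  have hE0 := (ES_at_zero n).1
  have hS0' := (ES_at_zero n).2
  have hF0 : F 0 = 0 := by
    simp only [hF, G2, zero_div, hE0, hS0']
    rw [div_self hn0, Complex.log_one, zero_div, neg_zero, Complex.exp_zero]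
    ring
  have hm0 : m2 n 0 = 1 := by
    simp only [m2, zero_div, hS0']
    rw [div_self hn0]
    simp
  have hid : HasDerivAt (fun U : ℂ => U / (n:ℂ) ^ 2) (1 / (n:ℂ) ^ 2) 0 :=
    (hasDerivAt_id (0:ℂ)).div_const _
  obtain ⟨hE', hS'⟩ := hasDerivAt_ES n
  have dE : HasDerivAt (fun U : ℂ => E n (U / n ^ 2)) ((n:ℂ) * (n - 1) / 2 * (1 / (n:ℂ) ^ 2)) 0 := by
    have h1 : HasDerivAt (E n) ((n:ℂ) * (n - 1) / 2) ((0:ℂ) / (n:ℂ) ^ 2) := by
      rw [zero_div]; exact hE'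
    exact h1.comp (0:ℂ) hid
  have dS : HasDerivAt (fun U : ℂ => S n (U / n ^ 2))
      ((n:ℂ) * (n - 1) * (n - 2) / 6 * (1 / (n:ℂ) ^ 2)) 0 := by
    have h1 : HasDerivAt (S n) ((n:ℂ) * (n - 1) * (n - 2) / 6) ((0:ℂ) / (n:ℂ) ^ 2) := by
      rw [zero_div]; exact hS'
    exact h1.comp (0:ℂ) hid
  have dS1 : HasDerivAt (fun U : ℂ => S n (U / n ^ 2) / n)
      ((n:ℂ) * (n - 1) * (n - 2) / 6 * (1 / (n:ℂ) ^ 2) / n) 0 := dS.div_const _
  have ha : HasDerivAt F ((((n:ℝ) + 1) / (6 * n) : ℝ) : ℂ) 0 := by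
    have h1 := ((dS1.clog (by simp only [zero_div, hS0']; rw [div_self hn0]; simp)).div_const
      ((n:ℂ) - 1)).neg.cexp
    have h2 := (dE.div dS (by simp only [zero_div, hS0']; exact hn0)).const_add 1
    have h3 := ((h1.mul h2).const_mul (n:ℂ)).sub_const ((n:ℂ) * (1 + 1 / n))
    have h4 : HasDerivAt F _ 0 := h3
    refine h4.congr_deriv ?_
    simp only [zero_div, hS0', hE0, Pi.neg_apply, Pi.div_apply]
    rw [div_self hn0, Complex.log_one, zero_div, neg_zero, Complex.exp_zero]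
    push_cast
    field_simp
    ring
  have hb : HasDerivAt (m2 n) (-((((n:ℝ) ^ 2 - 1) / (3 * n ^ 2) : ℝ) : ℂ)) 0 := by
    have h1 := (hid.const_sub 1).pow (n - 1)
    have h2 := dS1.pow 2
    have h3 := h1.div h2 (by
      simp only [zero_div, hS0', Pi.pow_apply]; rw [div_self hn0]; simp)
    have h4 : HasDerivAt (m2 n) _ 0 := h3
    refine h4.congr_deriv ?_
    simp only [zero_div, hS0', Pi.pow_apply]
    rw [div_self hn0]
    simp only [sub_zero, one_pow, cast_sub_one hn]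
    push_cast
    field_simp
    ring
  obtain ⟨U, hU, hFU, hmU⟩ := h F (m2 n) hFd hmd hnorm hmn hF0 hm0 (((n:ℝ) + 1) / (6 * n))
    (((n:ℝ) ^ 2 - 1) / (3 * n ^ 2)) (by
      rw [le_div_iff₀ (by positivity)]; linarith) (by
      rw [div_le_iff₀ (by positivity)]; linarith) (by
      rw [le_div_iff₀ (by positivity)]; nlinarith) (by
      rw [div_le_iff₀ (by positivity)]; nlinarith) ha hb ρ hρ hρle Z hZ hZ0
  have h1 := G2_mem hn hA (mem_ball_zero_iff.mp hU).le hmU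
  have h2 : G2 n U = 1 + 1 / n + Z / n := by
    simp only [hF] at hFU
    rw [← hFU]
    field_simp
    ring
  rwa [h2] at h1

end Pool.Agent.T9h9.Tan
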