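import Mathlib

set_option autoImplicit false

open Complex Set Metric Topology Filter

namespace Pool.Agent.T9h9.Tan

/-- there is a continuous logarithm of `c - e` on `M` -/
def HasLog (M : Set ℂ) (e : ℂ) : Prop :=
  ∃ L : ℂ → ℂ, ContinuousOn L M ∧ ∀ c ∈ M, exp (L c) = c - e

theorem hasLog_step {M : Set ℂ} {e e' : ℂ} (h : HasLog M e) (h1 : ∀ c ∈ M, dist e e' < dist c e) :
    HasLog M e' := by
  obtain ⟨L, hL, hLe⟩ := h
  have hne : ∀ c ∈ M, c - e ≠ 0 := by
    intro c hc h0
    have := h1 c hc
    rw [sub_eq_zero.mp h0, dist_self] at this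
    linarith [dist_nonneg (x := e) (y := e')]
  have hslit : ∀ c ∈ M, (c - e') / (c - e) ∈ slitPlane := by
    intro c hc
    have h2 : (c - e') / (c - e) = 1 + (e - e') / (c - e) := by
      have := hne c hc
      field_simp
      ring
    rw [h2]
    apply Complex.mem_slitPlane_of_norm_lt_one
    rw [norm_div, div_lt_one (norm_pos_iff.mpr (hne c hc))]
    have := h1 c hc
    rwa [dist_eq_norm, dist_eq_norm] at this
  refine ⟨fun c => L c + Complex.log ((c - e') / (c - e)), ?_, ?_⟩
  · apply hL.add
    apply ContinuousOn.clog _ hslit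
    apply ContinuousOn.div (by fun_prop) (by fun_prop) hne
  · intro c hc
    have h3 : (c - e') / (c - e) ≠ 0 := slitPlane_ne_zero (hslit c hc)
    rw [Complex.exp_add, hLe c hc, Complex.exp_log h3]
    have := hne c hc
    field_simp

theorem hasLog_far {M : Set ℂ} {e : ℂ} (h : ∀ c ∈ M, ‖c‖ < ‖e‖) : HasLog M e := by
  rcases M.eq_empty_or_nonempty with rfl | ⟨c0, hc0⟩
  · exact ⟨fun _ => 0, continuousOn_const, fun c hc => absurd hc (notMem_empty c)⟩
  have he : e ≠ 0 := by
    rintro rfl
    have := h c0 hc0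
    rw [norm_zero] at this
    linarith [norm_nonneg c0]
  have hslit : ∀ c ∈ M, 1 - c / e ∈ slitPlane := by
    intro c hc
    rw [sub_eq_add_neg]
    apply Complex.mem_slitPlane_of_norm_lt_one
    rw [norm_neg, norm_div, div_lt_one (norm_pos_iff.mpr he)]
    exact h c hc
  refine ⟨fun c => Complex.log (-e) + Complex.log (1 - c / e), ?_, ?_⟩
  · apply continuousOn_const.add
    exact ContinuousOn.clog (by fun_prop) hslit
  · intro c hc
    rw [Complex.exp_add, Complex.exp_log (neg_ne_zero.mpr he),
      Complex.exp_log (slitPlane_ne_zero (hslit c hc))]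
    field_simp
    ring

/-- On a compact set with connected complement there is a continuous logarithm of `c - e` for every
`e` outside. -/
theorem hasLog {M : Set ℂ} (hM : IsCompact M) (hc : IsPreconnected Mᶜ) {e : ℂ} (he : e ∉ M) :
    HasLog M e := by
  obtain ⟨R, hR⟩ := hM.isBounded.subset_closedBall (0:ℂ)
  set e₁ : ℂ := ((|R| + 1 : ℝ) : ℂ) with he₁
  have hn : ‖e₁‖ = |R| + 1 := by
    rw [he₁, Complex.norm_real, Real.norm_eq_abs, abs_of_pos (by positivity)]
  have hfar : ∀ c ∈ M, ‖c‖ < ‖e₁‖ := by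
    intro c hc'
    have := hR hc'
    rw [mem_closedBall_zero_iff] at this
    rw [hn]
    linarith [le_abs_self R]
  have he₁M : e₁ ∈ Mᶜ := fun h => lt_irrefl _ (hfar e₁ h)
  have key : HasLog M e₁ → HasLog M e := by
    refine hc.induction₂' (fun x y => HasLog M x → HasLog M y) ?_ ?_ he₁M he
    · intro x hx
      have hopen : IsOpen Mᶜ := hM.isClosed.isOpen_compl
      obtain ⟨r, hr, hball⟩ := Metric.isOpen_iff.mp hopen x hx
      have hfar' : ∀ c ∈ M, r ≤ dist c x := by
        intro c hc'
        by_contra hcon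
        push Not at hcon
        exact hball (mem_ball.mpr hcon) hc'
      have hev : ∀ᶠ y in 𝓝[Mᶜ] x, dist y x < r / 2 :=
        nhdsWithin_le_nhds (Metric.ball_mem_nhds x (by linarith))
      filter_upwards [hev] with y hy
      constructor
      · intro h
        apply hasLog_step h
        intro c hc'
        have := hfar' c hc'
        rw [dist_comm] at hy
        linarith
      · intro h
        apply hasLog_step h
        intro c hc'
        have h1 := hfar' c hc'
        have h2 := dist_triangle c y x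
        linarith
    · intro x y z _ _ _ h1 h2 h3
      exact h2 (h1 h3)
  exact key (hasLog_far hfar)

/-- two continuous logarithms differ by a constant on connected sets -/
theorem log_diff {S : Set ℂ} (hS : IsPreconnected S) {L K : ℂ → ℂ} (hL : ContinuousOn L S)
    (hK : ContinuousOn K S) {k : ℂ} (h : ∀ c ∈ S, exp (L c) = k * exp (K c)) {x y : ℂ}
    (hx : x ∈ S) (hy : y ∈ S) : L x - K x = L y - K y := by
  have h1 : ∀ c ∈ S, exp (L c - K c) = k := by
    intro c hc
    rw [Complex.exp_sub, h c hc, mul_div_assoc, div_self (Complex.exp_ne_zero _), mul_one]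
  -- the difference has discrete values
  have hcont : ContinuousOn (fun c => (L c - K c) - (L x - K x)) S :=
    (hL.sub hK).sub continuousOn_const
  have hint : ∀ c ∈ S, ∃ n : ℤ, (L c - K c) - (L x - K x) = n * (2 * Real.pi * I) := by
    intro c hc
    have h2 : exp ((L c - K c) - (L x - K x)) = 1 := by
      rw [Complex.exp_sub, h1 c hc, h1 x hx]
      apply div_self
      rw [← h1 x hx]; exact Complex.exp_ne_zero _
    exact Complex.exp_eq_one_iff.mp h2
  -- imaginary part divided by 2 pi is a continuous integer valued function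
  set g : ℂ → ℝ := fun c => ((L c - K c) - (L x - K x)).im / (2 * Real.pi) with hg
  have hgc : ContinuousOn g S := by
    apply ContinuousOn.div_const
    exact Complex.continuous_im.comp_continuousOn hcont
  have hgint : ∀ c ∈ S, ∃ n : ℤ, g c = n ∧ (L c - K c) - (L x - K x) = n * (2 * Real.pi * I) := by
    intro c hc
    obtain ⟨n, hn⟩ := hint c hc
    refine ⟨n, ?_, hn⟩
    rw [hg]
    simp only
    rw [hn]
    have : ((n:ℂ) * (2 * Real.pi * I)).im = n * (2 * Real.pi) := by simp
    rw [this]
    have hpi := Real.pi_pos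
    field_simp
  have himg : IsPreconnected (g '' S) := hS.image _ hgc
  have hgx : g x = 0 := by rw [hg]; simp
  have hgy : g y = 0 := by
    by_contra hne
    obtain ⟨n, hn, -⟩ := hgint y hy
    have hmem0 : (0:ℝ) ∈ g '' S := ⟨x, hx, hgx⟩
    have hmemn : g y ∈ g '' S := ⟨y, hy, rfl⟩
    have hn0 : n ≠ 0 := by
      rintro rfl
      apply hne; rw [hn]; simp
    rcases lt_or_gt_of_ne hn0 with hneg | hpos
    · have hle : g y ≤ -1 := by
        rw [hn]
        have : n ≤ -1 := by omega
        exact_mod_cast this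
      obtain ⟨c, hc, hcv⟩ := himg.Icc_subset hmemn hmem0 (show (-1/2 : ℝ) ∈ Icc (g y) 0 from
        ⟨by linarith, by norm_num⟩)
      obtain ⟨m, hm, -⟩ := hgint c hc
      rw [hcv] at hm
      have h2 : (2:ℝ) * m = -1 := by linarith
      have h3 : (2:ℤ) * m = -1 := by exact_mod_cast h2
      omega
    · have hle : 1 ≤ g y := by
        rw [hn]
        have : 1 ≤ n := by omega
        exact_mod_cast this
      obtain ⟨c, hc, hcv⟩ := himg.Icc_subset hmem0 hmemn (show (1/2 : ℝ) ∈ Icc 0 (g y) from
        ⟨by norm_num, by linarith⟩)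
      obtain ⟨m, hm, -⟩ := hgint c hc
      rw [hcv] at hm
      have h2 : (2:ℝ) * m = 1 := by linarith
      have h3 : (2:ℤ) * m = 1 := by exact_mod_cast h2
      omega
  obtain ⟨n, hn, hn2⟩ := hgint y hy
  have hn0 : (n:ℝ) = 0 := by rw [← hn]; exact hgy
  have hn0' : n = 0 := by exact_mod_cast hn0
  rw [hn0'] at hn2
  simp only [Int.cast_zero, zero_mul] at hn2
  exact (sub_eq_zero.mp hn2).symm

/-- the change of a continuous logarithm of `c - e` on a connected set contained in a disc which
does not contain `e`; `w` is the centre of the disc -/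
theorem log_ball {M S : Set ℂ} {e w : ℂ} {L : ℂ → ℂ} (hL : ContinuousOn L M)
    (hLe : ∀ c ∈ M, exp (L c) = c - e) (hSM : S ⊆ M) (hS : IsPreconnected S) {x y : ℂ}
    (hx : x ∈ S) (hy : y ∈ S) (hw : ∀ c ∈ S, dist c w < dist w e) :
    L y - L x = Complex.log ((y - e) / (w - e)) - Complex.log ((x - e) / (w - e)) := by
  have hwe : w - e ≠ 0 := by
    intro h0
    have := hw x hx
    rw [sub_eq_zero.mp h0, dist_self] at this
    linarith [dist_nonneg (x := x) (y := e)]
  have hslit : ∀ c ∈ S, (c - e) / (w - e) ∈ slitPlane := by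
    intro c hc
    have h2 : (c - e) / (w - e) = 1 + (c - w) / (w - e) := by
      field_simp
      ring
    rw [h2]
    apply Complex.mem_slitPlane_of_norm_lt_one
    rw [norm_div, div_lt_one (norm_pos_iff.mpr hwe)]
    have := hw c hc
    rwa [dist_eq_norm, dist_eq_norm] at this
  have h := log_diff hS (L := L) (K := fun c => Complex.log ((c - e) / (w - e))) (hL.mono hSM)
    (ContinuousOn.clog (by fun_prop) hslit) (k := w - e) (by
      intro c hc
      rw [hLe c (hSM hc), Complex.exp_log (slitPlane_ne_zero (hslit c hc))]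
      field_simp) hx hy
  linear_combination -h

theorem arg_pos_of_im {z : ℂ} (h : 0 < z.im) : 0 < (Complex.log z).im := by
  rw [Complex.log_im]
  have h1 := Complex.arg_nonneg_iff.mpr h.le
  rcases h1.eq_or_lt with h2 | h2
  · exfalso
    have := (Complex.arg_eq_zero_iff.mp h2.symm).2
    linarith
  · exact h2

theorem arg_neg_of_im {z : ℂ} (h : z.im < 0) : (Complex.log z).im < 0 := by
  rw [Complex.log_im]
  exact Complex.arg_neg_iff.mpr h

theorem im_div_pos {z w : ℂ} (hw : w ≠ 0) (h : 0 < z.im * w.re - z.re * w.im) :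
    0 < (z / w).im := by
  rw [Complex.div_im]
  have h1 : 0 < normSq w := normSq_pos.mpr hw
  have h2 : z.im * w.re / normSq w - z.re * w.im / normSq w =
      (z.im * w.re - z.re * w.im) / normSq w := by ring
  rw [h2]
  exact div_pos h h1

theorem im_div_neg {z w : ℂ} (hw : w ≠ 0) (h : z.im * w.re - z.re * w.im < 0) :
    (z / w).im < 0 := by
  rw [Complex.div_im]
  have h1 : 0 < normSq w := normSq_pos.mpr hw
  have h2 : z.im * w.re / normSq w - z.re * w.im / normSq w =
      (z.im * w.re - z.re * w.im) / normSq w := by ring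
  rw [h2]
  exact div_neg_of_neg_of_pos h h1

/-- **Tangent discs.** A full compact symmetric set which contains two closed discs of radius `ρ`
tangent at a boundary point has points at distance `≤ 2 h² / ρ` which cannot be joined by a
connected subset of diameter less than `h / 2`. -/
theorem tangent {M : Set ℂ} (hM : IsCompact M) (hc : IsPreconnected Mᶜ)
    (hsym : ∀ c ∈ M, (starRingEnd ℂ) c ∈ M) {ρ : ℝ} (hρ : 0 < ρ)
    (h1 : ∀ c : ℂ, ‖c + ρ‖ ≤ ρ → c ∈ M) (h2 : ∀ c : ℂ, ‖c - ρ‖ ≤ ρ → c ∈ M)
    (hfr : ∀ η : ℝ, 0 < η → ∃ e : ℂ, e ∉ M ∧ ‖e‖ < η) {h : ℝ} (hh : 0 < h) (hhρ : h ≤ ρ / 2) :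
    ∃ x ∈ M, ∃ y ∈ M, x ≠ y ∧ dist x y ≤ 2 * h ^ 2 / ρ ∧ ‖x‖ ≤ 2 * h ∧ ‖y‖ ≤ 2 * h ∧
      ∀ S : Set ℂ, S ⊆ M → IsPreconnected S → x ∈ S → y ∈ S → h / 2 ≤ Metric.diam S := by
  set a := ρ - Real.sqrt (ρ ^ 2 - h ^ 2) with ha
  have hsq0 : 0 ≤ ρ ^ 2 - h ^ 2 := by nlinarith
  have hsq : Real.sqrt (ρ ^ 2 - h ^ 2) ^ 2 = ρ ^ 2 - h ^ 2 := Real.sq_sqrt hsq0
  have hs0 := Real.sqrt_nonneg (ρ ^ 2 - h ^ 2)
  set s := Real.sqrt (ρ ^ 2 - h ^ 2) with hs
  have hsρ : s < ρ := by
    by_contra hcon
    push Not at hcon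
    nlinarith
  have ha0 : 0 < a := by linarith
  have haρ : a ≤ h ^ 2 / ρ := by
    rw [le_div_iff₀ hρ, ha]
    nlinarith
  have hah : a ≤ h / 2 := by
    refine haρ.trans ?_
    rw [div_le_iff₀ hρ]
    nlinarith
  set x : ℂ := ⟨-a, h⟩ with hx
  set y : ℂ := ⟨a, h⟩ with hy
  have hxn : ‖x + ρ‖ ≤ ρ := by
    have h3 : normSq (x + ρ) = ρ ^ 2 := by
      rw [normSq_apply]
      simp only [hx, add_re, ofReal_re, add_im, ofReal_im, add_zero]
      have : -a + ρ = s := by rw [ha]; ring
      rw [this]
      nlinarith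
    rw [← Complex.sq_norm] at h3
    exact le_of_eq ((sq_eq_sq₀ (norm_nonneg _) hρ.le).mp h3)
  have hyn : ‖y - ρ‖ ≤ ρ := by
    have h3 : normSq (y - ρ) = ρ ^ 2 := by
      rw [normSq_apply]
      simp only [hy, sub_re, ofReal_re, sub_im, ofReal_im, sub_zero]
      have : a - ρ = -s := by rw [ha]; ring
      rw [this]
      nlinarith
    rw [← Complex.sq_norm] at h3
    exact le_of_eq ((sq_eq_sq₀ (norm_nonneg _) hρ.le).mp h3)
  have hxM := h1 x hxn
  have hyM := h2 y hyn
  have hxh : ‖x‖ ≤ 2 * h := by
    have h3 := Complex.norm_le_abs_re_add_abs_im x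
    simp only [hx] at h3
    rw [abs_neg, abs_of_pos ha0, abs_of_pos hh] at h3
    linarith
  have hyh : ‖y‖ ≤ 2 * h := by
    have h3 := Complex.norm_le_abs_re_add_abs_im y
    simp only [hy] at h3
    rw [abs_of_pos ha0, abs_of_pos hh] at h3
    linarith
  refine ⟨x, hxM, y, hyM, ?_, ?_, hxh, hyh, ?_⟩
  · intro hxy
    have := congrArg Complex.re hxy
    simp only [hx, hy] at this
    linarith
  · have h3 : x - y = ((-2 * a : ℝ) : ℂ) := by
      apply Complex.ext
      · simp only [hx, hy, sub_re, ofReal_re]; ring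
      · simp only [hx, hy, sub_im, ofReal_im]; ring
    rw [dist_eq_norm, h3, Complex.norm_real, Real.norm_eq_abs,
      abs_of_neg (by linarith : -2 * a < 0)]
    have : 2 * h ^ 2 / ρ = 2 * (h ^ 2 / ρ) := by ring
    rw [this]; linarith
  intro S hSM hSc hxS hyS
  by_contra hdiam
  push Not at hdiam
  -- an exterior point close to the point of tangency
  obtain ⟨e, heM, hen, hei⟩ : ∃ e : ℂ, e ∉ M ∧ ‖e‖ < h / 8 ∧ 0 < e.im := by
    obtain ⟨e, heM, hen⟩ := hfr (h / 8) (by linarith)
    have hren := abs_re_le_norm e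
    have hei : e.im ≠ 0 := by
      intro h0
      apply heM
      rcases le_total 0 e.re with hre | hre
      · apply h2
        have h3 : e - ρ = ((e.re - ρ : ℝ) : ℂ) := by
          apply Complex.ext <;> simp [h0]
        rw [h3, Complex.norm_real, Real.norm_eq_abs, abs_le]
        have := (abs_le.mp hren).2
        constructor <;> linarith
      · apply h1
        have h3 : e + ρ = ((e.re + ρ : ℝ) : ℂ) := by
          apply Complex.ext <;> simp [h0]
        rw [h3, Complex.norm_real, Real.norm_eq_abs, abs_le]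
        have := (abs_le.mp hren).1
        constructor <;> linarith
    rcases lt_or_gt_of_ne hei with hlt | hgt
    · refine ⟨(starRingEnd ℂ) e, ?_, ?_, ?_⟩
      · intro hmem
        apply heM
        have := hsym _ hmem
        rwa [Complex.conj_conj] at this
      · rwa [Complex.norm_conj]
      · rw [conj_im]; linarith
    · exact ⟨e, heM, hen, hgt⟩
  have hre := abs_re_le_norm e
  have him := abs_im_le_norm e
  have hre1 := (abs_le.mp hre).1
  have hre2 := (abs_le.mp hre).2
  have him2 := (abs_le.mp him).2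
  set e1 := e.re with he1
  set e2 := e.im with he2
  obtain ⟨L, hL, hLe⟩ := hasLog hM hc heM
  have h0M : (0:ℂ) ∈ M := by
    apply h2
    rw [zero_sub, norm_neg, Complex.norm_real, Real.norm_eq_abs, abs_of_pos hρ]
  -- the left disc
  have hleft : L x - L 0 = Complex.log ((x - e) / (((-ρ : ℝ) : ℂ) - e)) -
      Complex.log ((0 - e) / (((-ρ : ℝ) : ℂ) - e)) := by
    apply log_ball hL hLe (S := closedBall ((-ρ : ℝ) : ℂ) ρ)
    · intro c hcb
      apply h1
      rw [mem_closedBall, dist_eq_norm] at hcb
      simpa using hcb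
    · exact (convex_closedBall _ _).isPreconnected
    · rw [mem_closedBall, dist_eq_norm]
      simp [abs_of_pos hρ]
    · rw [mem_closedBall, dist_eq_norm]
      simpa using hxn
    · intro c hcb
      refine lt_of_le_of_lt (mem_closedBall.mp hcb) ?_
      by_contra hcon
      push Not at hcon
      apply heM
      apply h1
      rw [dist_comm, dist_eq_norm] at hcon
      simpa using hcon
  have hright : L y - L 0 = Complex.log ((y - e) / ((ρ : ℂ) - e)) -
      Complex.log ((0 - e) / ((ρ : ℂ) - e)) := by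
    apply log_ball hL hLe (S := closedBall (ρ : ℂ) ρ)
    · intro c hcb
      apply h2
      rw [mem_closedBall, dist_eq_norm] at hcb
      exact hcb
    · exact (convex_closedBall _ _).isPreconnected
    · rw [mem_closedBall, dist_eq_norm]
      simp [abs_of_pos hρ]
    · rw [mem_closedBall, dist_eq_norm]
      exact hyn
    · intro c hcb
      refine lt_of_le_of_lt (mem_closedBall.mp hcb) ?_
      by_contra hcon
      push Not at hcon
      apply heM
      apply h2
      rw [dist_comm, dist_eq_norm] at hcon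
      exact hcon
  have hbd : Bornology.IsBounded S := hM.isBounded.subset hSM
  have hmid : L y - L x = Complex.log ((y - e) / (x - e)) - Complex.log ((x - e) / (x - e)) := by
    apply log_ball hL hLe hSM hSc hxS hyS
    intro c hcS
    have h3 := Metric.dist_le_diam_of_mem hbd hcS hxS
    have h4 := abs_im_le_norm (x - e)
    rw [dist_eq_norm x e]
    have h5 : (x - e).im = h - e2 := by rw [sub_im, hx, he2]
    rw [h5] at h4
    have h6 := le_abs_self (h - e2)
    linarith
  -- signs
  have hne1 : ((-ρ : ℝ) : ℂ) - e ≠ 0 := by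
    intro h0
    have := congrArg Complex.im h0
    simp only [sub_im, ofReal_im, zero_im] at this
    linarith
  have hne2 : (ρ : ℂ) - e ≠ 0 := by
    intro h0
    have := congrArg Complex.im h0
    simp only [sub_im, ofReal_im, zero_im] at this
    linarith
  have hne3 : x - e ≠ 0 := by
    intro h0
    have := congrArg Complex.im h0
    simp only [sub_im, zero_im, hx] at this
    linarith
  have s1 : (Complex.log ((x - e) / (((-ρ : ℝ) : ℂ) - e))).im < 0 := by
    apply arg_neg_of_im
    apply im_div_neg hne1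
    simp only [sub_re, sub_im, ofReal_re, ofReal_im, hx]
    rw [← he1, ← he2]
    nlinarith [mul_pos hei ha0, mul_pos hei hh, mul_pos hh hρ, mul_nonneg hei.le (show 0 ≤ h / 8 - e1 by linarith), mul_nonneg (show 0 ≤ h - e2 - 7 * h / 8 by linarith) (show 0 ≤ ρ + e1 by linarith)]
  have s2 : 0 < (Complex.log ((0 - e) / (((-ρ : ℝ) : ℂ) - e))).im := by
    apply arg_pos_of_im
    apply im_div_pos hne1
    simp only [sub_re, sub_im, ofReal_re, ofReal_im, zero_re, zero_im]
    rw [← he1, ← he2]
    nlinarith [mul_pos hei hρ]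
  have s3 : 0 < (Complex.log ((y - e) / ((ρ : ℂ) - e))).im := by
    apply arg_pos_of_im
    apply im_div_pos hne2
    simp only [sub_re, sub_im, ofReal_re, ofReal_im, hy]
    rw [← he1, ← he2]
    nlinarith [mul_pos hei ha0, mul_pos hei hh, mul_pos hh hρ, mul_nonneg hei.le (show 0 ≤ h / 8 + e1 by linarith), mul_nonneg (show 0 ≤ h - e2 - 7 * h / 8 by linarith) (show 0 ≤ ρ - e1 by linarith)]
  have s4 : (Complex.log ((0 - e) / ((ρ : ℂ) - e))).im < 0 := by
    apply arg_neg_of_im
    apply im_div_neg hne2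
    simp only [sub_re, sub_im, ofReal_re, ofReal_im, zero_re, zero_im]
    rw [← he1, ← he2]
    nlinarith [mul_pos hei hρ]
  have s5 : (Complex.log ((y - e) / (x - e))).im < 0 := by
    apply arg_neg_of_im
    apply im_div_neg hne3
    simp only [sub_re, sub_im, hx, hy]
    rw [← he1, ← he2]
    nlinarith [mul_pos ha0 (show 0 < h - e2 by linarith)]
  have hxx : Complex.log ((x - e) / (x - e)) = 0 := by
    rw [div_self hne3, Complex.log_one]
  rw [hxx, sub_zero] at hmid
  have h3 : L y - L x = (L y - L 0) - (L x - L 0) := by ring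
  rw [h3, hleft, hright] at hmid
  have h4 := congrArg Complex.im hmid
  simp only [sub_im] at h4
  linarith

end Pool.Agent.T9h9.Tan
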