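import Mathlib
import Pool.Agent.T9h9.Tan.Topo
import Pool.Agent.T9h9.Tan.Par
import Pool.Agent.T9h9.Cusp.Near
import Pool.Agent.H713R2.Ext3
import Pool.Agent.H712R2.MultiConn
import Pool.Agent.W677.MC8

set_option autoImplicit false

open Complex Set Metric Topology Filter N62a1eb23
open Pool.Agent.H712R2 Pool.Agent.H713R2 Pool.Agent.W677.MC

namespace Pool.Agent.T9h9.Tan

/-- The complement of a Multibrot set is connected. -/
theorem compl_preconnected {n : ℕ} (hn : 2 ≤ n) : IsPreconnected (multibrotSet n)ᶜ := by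
  obtain ⟨β, hβ⟩ := exists_beta (d := n) hn
  have hψ := exteriorMap_of_beta hβ
  rw [← hψ.image]
  apply IsPreconnected.image _ _ hψ.diff.continuousOn
  have h := isPreconnected_ext 1 one_ne_zero
  have h2 : {z : ℂ | 1 < ‖z‖} = (fun z : ℂ => z / 2) '' {w : ℂ | 2 < ‖w‖ ^ 1} := by
    ext z
    simp only [mem_image, mem_ofPred_eq, pow_one]
    constructor
    · intro hz
      refine ⟨2 * z, ?_, by ring⟩
      rw [norm_mul]
      simp only [Complex.norm_ofNat]
      linarith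
    · rintro ⟨w, hw, rfl⟩
      rw [norm_div]
      simp only [Complex.norm_ofNat]
      linarith
  rw [h2]
  exact h.image _ (by fun_prop)

theorem A_ge {n : ℕ} (hn : 2 ≤ n) {A : ℂ} (hA : A ^ (n - 1) = -1 / n) : 1 / 2 ≤ ‖A‖ := by
  have hnr : (2 : ℝ) ≤ n := by exact_mod_cast hn
  have h1 : ‖A‖ ^ (n - 1) = 1 / n := by
    rw [← norm_pow, hA, norm_div, norm_neg, norm_one, Complex.norm_natCast]
  by_contra hcon
  push Not at hcon
  have h2 : ‖A‖ ^ (n - 1) < (1 / 2) ^ (n - 1) := pow_lt_pow_left₀ hcon (norm_nonneg _) (by omega)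
  have h3 : (n:ℝ) ≤ 2 ^ (n - 1) := by
    have : n ≤ 2 ^ (n - 1) := by
      have := Nat.lt_two_pow_self (n := n - 1)
      omega
    exact_mod_cast this
  have h4 : ((1:ℝ) / 2) ^ (n - 1) ≤ 1 / n := by
    rw [div_pow, one_pow]
    exact one_div_le_one_div_of_le (by linarith) h3
  linarith

theorem cc_zero {n : ℕ} (hn : 2 ≤ n) {A : ℂ} (hA : A ^ (n - 1) = -1 / n) :
    cc n A 0 = A * (1 + 1 / n) := by
  have h1 : A ^ n = -1 / n * A := by
    rw [← hA, ← pow_succ]; congr 1; omega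
  rw [cc, add_zero, h1]; ring

/-- reflection in the line through the root -/
theorem reflect {n : ℕ} (hn : 2 ≤ n) {A : ℂ} (hA : A ^ (n - 1) = -1 / n) {G : ℂ}
    (h : A * G ∈ multibrotSet n) : A * (starRingEnd ℂ) G ∈ multibrotSet n := by
  have hA0 : A ≠ 0 := norm_pos_iff.mp (A_le hn hA).2
  have hAc : (starRingEnd ℂ) A ≠ 0 := (map_ne_zero _).mpr hA0
  have hω : (A / (starRingEnd ℂ) A) ^ (n - 1) = 1 := by
    rw [div_pow, ← map_pow, hA]
    have hn0 := n_ne hn
    rw [map_div₀, map_neg, map_one, map_natCast]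
    exact div_self (div_ne_zero (by norm_num) hn0)
  have h1 := Cusp.conj_mem hn h
  rw [mem_multibrot_iff hn] at h1 ⊢
  intro k
  have h2 : A * (starRingEnd ℂ) G = A / (starRingEnd ℂ) A * (starRingEnd ℂ) (A * G) := by
    rw [map_mul]; field_simp
  rw [h2, P_rot hn hω, norm_mul, norm_div, Complex.norm_conj, div_self (norm_ne_zero_iff.mpr hA0),
    one_mul]
  exact h1 k

/-- **Lower bound near the roots of the components of period two.** -/
theorem main : ∃ c : ℝ, 0 < c ∧ ∀ n : ℕ, 2 ≤ n → ∀ A : ℂ, A ^ (n - 1) = -1 / n →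
    ∀ δ : ℝ, 0 < δ → δ ≤ c / n →
    ∃ x ∈ multibrotSet n, ∃ y ∈ multibrotSet n, x ≠ y ∧ dist x y ≤ δ ∧
      dist x (A * (1 + 1 / n)) ≤ √(δ / n) ∧ dist y (A * (1 + 1 / n)) ≤ √(δ / n) ∧
      ∀ S : Set ℂ, S ⊆ multibrotSet n → IsPreconnected S → x ∈ S → y ∈ S →
        c * √(δ / n) ≤ Metric.diam S := by
  obtain ⟨ρ₁, hρ₁, H1⟩ := G0_disc
  obtain ⟨ρ₂, hρ₂, H2⟩ := G2_disc
  set ρ := min (min ρ₁ ρ₂) (1 / 2) with hρdef
  have hρ : 0 < ρ := lt_min (lt_min hρ₁ hρ₂) (by norm_num)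
  have hρ1 : ρ ≤ ρ₁ := (min_le_left _ _).trans (min_le_left _ _)
  have hρ2 : ρ ≤ ρ₂ := (min_le_left _ _).trans (min_le_right _ _)
  have hρh : ρ ≤ 1 / 2 := min_le_right _ _
  refine ⟨min (ρ / 2) (√(ρ / 2) / 4), by positivity, ?_⟩
  intro n hn A hA δ hδ hδn
  have hnr : (2 : ℝ) ≤ n := by exact_mod_cast hn
  have hn0 := n_ne hn
  obtain ⟨hA1, hApos⟩ := A_le hn hA
  have hA2 := A_ge hn hA
  have hA0 : A ≠ 0 := norm_pos_iff.mp hApos
  set φ : ℂ → ℂ := fun Z => A * (1 + 1 / n + Z / n) with hφ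
  have hφd : ∀ a b, dist (φ a) (φ b) = ‖A‖ / n * dist a b := by
    intro a b
    rw [dist_eq_norm, dist_eq_norm]
    have : φ a - φ b = A / n * (a - b) := by simp only [hφ]; ring
    rw [this, norm_mul, norm_div, Complex.norm_natCast]
  have hφc : Continuous φ := by fun_prop
  set φi : ℂ → ℂ := fun c => (c / A - (1 + 1 / n)) * n with hφi
  have hφic : Continuous φi := by fun_prop
  have hl : ∀ c, φ (φi c) = c := by
    intro c; simp only [hφ, hφi]; field_simp; ring
  have hr : ∀ Z, φi (φ Z) = Z := by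
    intro Z; simp only [hφ, hφi]; field_simp; ring
  have himg : ∀ T : Set ℂ, φ ⁻¹' T = φi '' T := by
    intro T
    ext Z
    constructor
    · intro h; exact ⟨φ Z, h, hr Z⟩
    · rintro ⟨c, hc, rfl⟩
      change φ (φi c) ∈ T
      rwa [hl]
  set M' : Set ℂ := φ ⁻¹' multibrotSet n with hM'
  have hM'c : IsCompact M' := by
    rw [hM', himg]
    exact (isCompact_multibrot hn).image hφic
  have hM'p : IsPreconnected M'ᶜ := by
    have : M'ᶜ = φ ⁻¹' (multibrotSet n)ᶜ := rfl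
    rw [this, himg]
    exact (compl_preconnected hn).image _ hφic.continuousOn
  have hM's : ∀ c ∈ M', (starRingEnd ℂ) c ∈ M' := by
    intro c hc
    have h1 := reflect hn hA hc
    have h2 : (starRingEnd ℂ) (1 + 1 / (n:ℂ) + c / n) = 1 + 1 / (n:ℂ) + (starRingEnd ℂ) c / n := by
      simp only [map_add, map_div₀, map_one, map_natCast]
    rw [h2] at h1
    exact h1
  have h0M' : (0:ℂ) ∈ M' := by
    have h1 := mem0 hn hA
    rw [cc_zero hn hA] at h1
    change A * (1 + 1 / (n:ℂ) + 0 / n) ∈ multibrotSet n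
    rwa [zero_div, add_zero]
  have hd1 : ∀ c : ℂ, ‖c + ρ‖ ≤ ρ → c ∈ M' := by
    intro c hc
    by_cases h0 : c = 0
    · rw [h0]; exact h0M'
    have h1 := H1 n hn A hA ρ hρ hρ1 (-c) (by
      have : -c - ρ = -(c + ρ) := by ring
      rwa [this, norm_neg]) (neg_ne_zero.mpr h0)
    rw [neg_neg] at h1
    exact h1
  have hd2 : ∀ c : ℂ, ‖c - ρ‖ ≤ ρ → c ∈ M' := by
    intro c hc
    by_cases h0 : c = 0
    · rw [h0]; exact h0M'
    exact H2 n hn A hA ρ hρ hρ2 c hc h0
  have hfr : ∀ η : ℝ, 0 < η → ∃ e : ℂ, e ∉ M' ∧ ‖e‖ < η := by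
    intro η hη
    obtain ⟨β, hβ⟩ := exists_beta (d := n) hn
    have hψ := exteriorMap_of_beta hβ
    obtain ⟨C, hC, hnear⟩ := nearG hn hA
    set θ := min 1 (η / (4 * n)) with hθ
    have hθ0 : 0 < θ := lt_min one_pos (by positivity)
    obtain ⟨z, hz1, hz2, -⟩ := hnear _ hψ θ hθ0 (min_le_left _ _)
    set c := (fun z => z * β z⁻¹) z with hc
    have hcM : c ∈ (multibrotSet n)ᶜ := by
      rw [← hψ.image]; exact ⟨z, hz1, rfl⟩
    refine ⟨φi c, ?_, ?_⟩
    · intro h
      apply hcM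
      change φ (φi c) ∈ multibrotSet n at h
      rwa [hl] at h
    · have h1 : φi c = (c - cc n A 0) * (n / A) := by
        rw [cc_zero hn hA]; simp only [hφi]; field_simp
      rw [h1, norm_mul, norm_div, Complex.norm_natCast]
      have h2 : ‖c - cc n A 0‖ ≤ η / (4 * n) := hz2.trans (min_le_right _ _)
      have h3 : (n:ℝ) / ‖A‖ ≤ 2 * n := by
        rw [div_le_iff₀ hApos]
        nlinarith
      calc ‖c - cc n A 0‖ * (n / ‖A‖) ≤ η / (4 * n) * (2 * n) :=
            mul_le_mul h2 h3 (by positivity) (by positivity)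
        _ = η / 2 := by field_simp; norm_num
        _ < η := by linarith
  set h := √(δ * n * ρ / 2) with hh
  have hpos : 0 < δ * n * ρ / 2 := by positivity
  have hh0 : 0 < h := Real.sqrt_pos.mpr hpos
  have hhsq : h ^ 2 = δ * n * ρ / 2 := Real.sq_sqrt hpos.le
  have hδn' : δ * n ≤ ρ / 2 := by
    rw [le_div_iff₀ (by linarith)] at hδn
    exact hδn.trans (min_le_left _ _)
  have hhρ : h ≤ ρ / 2 := by
    rw [hh]
    apply Real.sqrt_le_iff.mpr
    refine ⟨by linarith, ?_⟩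
    nlinarith
  obtain ⟨x, hx, y, hy, hxy, hdist, hxn, hyn, hS⟩ := tangent hM'c hM'p hM's hρ hd1 hd2 hfr hh0 hhρ
  have hφ0 : φ 0 = A * (1 + 1 / n) := by simp [hφ]
  have hsq : √(δ / n) = √(2 / ρ) * (h / n) := by
    have h1 : h / n = √(δ * n * ρ / 2) / n := rfl
    have h2 : δ / n = (2 / ρ) * (h / n) ^ 2 := by
      rw [div_pow, hhsq]; field_simp
    rw [h2, Real.sqrt_mul (by positivity), Real.sqrt_sq (by positivity)]
  have h2ρ : 2 ≤ √(2 / ρ) := by
    apply Real.le_sqrt_of_sq_le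
    rw [le_div_iff₀ hρ]
    nlinarith
  have hnear : ∀ z : ℂ, ‖z‖ ≤ 2 * h → dist (φ z) (A * (1 + 1 / n)) ≤ √(δ / n) := by
    intro z hz
    rw [← hφ0, hφd, dist_zero_right, hsq]
    have h3 : ‖A‖ / n * ‖z‖ ≤ 1 / n * (2 * h) := by
      apply mul_le_mul _ hz (norm_nonneg _) (by positivity)
      exact div_le_div_of_nonneg_right hA1 (by linarith)
    have h4 : 2 * (h / n) ≤ √(2 / ρ) * (h / n) :=
      mul_le_mul_of_nonneg_right h2ρ (by positivity)
    have h5 : 1 / (n:ℝ) * (2 * h) = 2 * (h / n) := by ring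
    linarith
  refine ⟨φ x, hx, φ y, hy, ?_, ?_, hnear x hxn, hnear y hyn, ?_⟩
  · intro heq
    apply hxy
    rw [← hr x, ← hr y, heq]
  · rw [hφd]
    have h3 : 2 * h ^ 2 / ρ = δ * n := by rw [hhsq]; field_simp
    rw [h3] at hdist
    calc ‖A‖ / n * dist x y ≤ 1 / n * (δ * n) := by
          apply mul_le_mul _ hdist dist_nonneg (by positivity)
          exact div_le_div_of_nonneg_right hA1 (by linarith)
      _ = δ := by field_simp
  · intro S hSM hSp hxS hyS
    have hSb : Bornology.IsBounded S := (isCompact_multibrot hn).isBounded.subset hSM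
    have h3 := hS (φ ⁻¹' S) (preimage_mono hSM) (by
      rw [himg]; exact hSp.image _ hφic.continuousOn) hxS hyS
    have h4 : Metric.diam (φ ⁻¹' S) ≤ n / ‖A‖ * Metric.diam S := by
      apply Metric.diam_le_of_forall_dist_le (by have := Metric.diam_nonneg (s := S); positivity)
      intro a ha b hb
      have h5 := Metric.dist_le_diam_of_mem hSb (show φ a ∈ S from ha) (show φ b ∈ S from hb)
      rw [hφd] at h5
      have h6 : dist a b = n / ‖A‖ * (‖A‖ / n * dist a b) := by field_simp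
      rw [h6]
      exact mul_le_mul_of_nonneg_left h5 (by positivity)
    have h5 : (n:ℝ) / ‖A‖ ≤ 2 * n := by
      rw [div_le_iff₀ hApos]
      nlinarith
    have h6 : h / 2 ≤ 2 * n * Metric.diam S :=
      (h3.trans h4).trans (mul_le_mul_of_nonneg_right h5 Metric.diam_nonneg)
    have h7 : min (ρ / 2) (√(ρ / 2) / 4) * √(δ / n) ≤ √(ρ / 2) / 4 * √(δ / n) :=
      mul_le_mul_of_nonneg_right (min_le_right _ _) (Real.sqrt_nonneg _)
    have h8 : √(ρ / 2) * √(δ / n) = h / n := by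
      rw [hsq, ← mul_assoc, ← Real.sqrt_mul (by positivity)]
      have : ρ / 2 * (2 / ρ) = 1 := by field_simp
      rw [this, Real.sqrt_one, one_mul]
    have h9 : √(ρ / 2) / 4 * √(δ / n) = h / n / 4 := by rw [← h8]; ring
    have h10 : h / n / 4 ≤ Metric.diam S := by
      rw [div_div, div_le_iff₀ (by positivity)]
      linarith
    linarith

end Pool.Agent.T9h9.Tan
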